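import Mathlib

/-!
# Equidecomposability by translations, with pieces in a Boolean algebra of sets

Definitions follow the problem file: `X` is an abelian group (written additively), the acting group
is the group of all translations of `X`, and `𝒜` is a subalgebra of the power set of `X`.
-/

open Set Function
open scoped Pointwise

namespace Pool.Agent.Lib.MP_59868e_an

variable {X : Type*} [AddCommGroup X]

/-- `A ∼ B` with pieces in `𝒜`: there are partitions `A = ⋃ P i` and `B = ⋃ (g i +ᵥ P i)` into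
finitely many pieces, all pieces `P i` and all translated pieces `g i +ᵥ P i` lying in `𝒜`. -/
def Equidecomposable (𝒜 : BooleanSubalgebra (Set X)) (A B : Set X) : Prop :=
  ∃ (k : ℕ) (P : Fin k → Set X) (g : Fin k → X),
    (∀ i, P i ∈ 𝒜) ∧ (∀ i, (g i +ᵥ P i) ∈ 𝒜) ∧
    Pairwise (Disjoint on P) ∧ Pairwise (Disjoint on fun i => g i +ᵥ P i) ∧
    (⋃ i, P i) = A ∧ (⋃ i, (g i +ᵥ P i)) = B

/-- `n[A] = n[B]`: the sets `A × {0, …, n-1}` and `B × {0, …, n-1}` are equidecomposable in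
`X × ℕ`: finitely many pieces `C i × {j i}` with `C i ∈ 𝒜` partition the first set and are moved by
`(x, j i) ↦ (g i + x, m i)` onto the pieces `(g i +ᵥ C i) × {m i}`, with `g i +ᵥ C i ∈ 𝒜`, which
partition the second set. -/
def MultipleEquidecomposable (𝒜 : BooleanSubalgebra (Set X)) (n : ℕ) (A B : Set X) : Prop :=
  ∃ (k : ℕ) (C : Fin k → Set X) (j m : Fin k → ℕ) (g : Fin k → X),
    (∀ i, C i ∈ 𝒜) ∧ (∀ i, (g i +ᵥ C i) ∈ 𝒜) ∧
    Pairwise (Disjoint on fun i => C i ×ˢ ({j i} : Set ℕ)) ∧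
    Pairwise (Disjoint on fun i => (g i +ᵥ C i) ×ˢ ({m i} : Set ℕ)) ∧
    (⋃ i, C i ×ˢ ({j i} : Set ℕ)) = A ×ˢ Set.Iio n ∧
    (⋃ i, (g i +ᵥ C i) ×ˢ ({m i} : Set ℕ)) = B ×ˢ Set.Iio n

/-- The Cancellation Law for `(X, all translations, 𝒜)`: for all `A, B ∈ 𝒜` and `n ≥ 1`,
`n[A] = n[B]` implies `[A] = [B]`. -/
def CancellationLaw (𝒜 : BooleanSubalgebra (Set X)) : Prop :=
  ∀ A ∈ 𝒜, ∀ B ∈ 𝒜, ∀ n : ℕ, 1 ≤ n → MultipleEquidecomposable 𝒜 n A B → Equidecomposable 𝒜 A B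

/-- `𝒜` is invariant under all translations of `X`. -/
def TranslationInvariant (𝒜 : BooleanSubalgebra (Set X)) : Prop :=
  ∀ A ∈ 𝒜, ∀ g : X, (g +ᵥ A) ∈ 𝒜

end Pool.Agent.Lib.MP_59868e_an
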