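import Pool.Agent.Lib.MP_59868e_an.Defs

open Set Function
open scoped Pointwise

namespace Pool.Agent.Lib.MP_59868e_an

section Algebraic

variable {Q : Type*} [AddCommGroup Q]

/-- Points of `S` whose translate by `v` is not in `S`. When `v + v = 0` these points are in
bijection with the `⟨v⟩`-orbits that meet `S` in exactly one point. -/
def gap (v : Q) (S : Set Q) : Set Q := {x | x ∈ S ∧ x + v ∉ S}

lemma gap_compl {v : Q} (hv2 : v + v = 0) (S : Set Q) : gap v Sᶜ = (fun x => x + v) '' gap v S := by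
  ext x
  simp only [gap, Set.mem_ofPred_eq, mem_compl_iff, not_not, mem_image]
  constructor
  · rintro ⟨h1, h2⟩
    refine ⟨x + v, ⟨h2, ?_⟩, ?_⟩
    · rw [add_assoc, hv2, add_zero]; exact h1
    · rw [add_assoc, hv2, add_zero]
  · rintro ⟨y, ⟨h1, h2⟩, rfl⟩
    refine ⟨h2, ?_⟩
    rw [add_assoc, hv2, add_zero]; exact h1

lemma gap_union_subset (v : Q) (S T : Set Q) : gap v (S ∪ T) ⊆ gap v S ∪ gap v T := by
  intro x hx
  simp only [gap, Set.mem_ofPred_eq, mem_union, not_or] at hx ⊢
  tauto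

lemma gap_vadd (v g : Q) (S : Set Q) : gap v (g +ᵥ S) = g +ᵥ gap v S := by
  ext x
  simp only [gap, Set.mem_ofPred_eq, Set.mem_vadd_set_iff_neg_vadd_mem, vadd_eq_add]
  rw [add_assoc]

/-- parity of the number of `⟨v⟩`-orbits met in exactly one point -/
noncomputable def par (v : Q) (S : Set Q) : ZMod 2 := ((gap v S).ncard : ZMod 2)

lemma par_vadd (v g : Q) (S : Set Q) : par v (g +ᵥ S) = par v S := by
  unfold par
  rw [gap_vadd]
  congr 1
  exact Set.ncard_image_of_injective _ (fun a b h => by simpa using h)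

lemma par_union {v : Q} (hv2 : v + v = 0) {S T : Set Q} (hST : Disjoint S T)
    (hS : (gap v S).Finite) (hT : (gap v T).Finite) : par v (S ∪ T) = par v S + par v T := by
  classical
  -- D = points of S moved into T
  set D : Set Q := {x | x ∈ S ∧ x + v ∈ T} with hD
  set D' : Set Q := {x | x ∈ T ∧ x + v ∈ S} with hD'
  have hnot : ∀ x, x ∈ S → x ∉ T := fun x h1 h2 => (Set.disjoint_left.mp hST) h1 h2
  have hDsub : D ⊆ gap v S := by
    rintro x ⟨h1, h2⟩
    exact ⟨h1, fun h => hnot _ h h2⟩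
  have hD'sub : D' ⊆ gap v T := by
    rintro x ⟨h1, h2⟩
    exact ⟨h1, fun h => hnot _ h2 h⟩
  have himg : D' = (fun x => x + v) '' D := by
    ext x
    simp only [hD, hD', Set.mem_ofPred_eq, mem_image]
    constructor
    · rintro ⟨h1, h2⟩
      refine ⟨x + v, ⟨h2, ?_⟩, ?_⟩
      · rw [add_assoc, hv2, add_zero]; exact h1
      · rw [add_assoc, hv2, add_zero]
    · rintro ⟨y, ⟨h1, h2⟩, rfl⟩
      refine ⟨h2, ?_⟩
      rw [add_assoc, hv2, add_zero]; exact h1
  have hcard : D'.ncard = D.ncard := by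
    rw [himg]
    exact Set.ncard_image_of_injective _ (fun a b h => by simpa using h)
  -- E = points of S moved outside S ∪ T, F = points of T moved outside
  set E : Set Q := {x | x ∈ S ∧ x + v ∉ S ∧ x + v ∉ T} with hE
  set F : Set Q := {x | x ∈ T ∧ x + v ∉ S ∧ x + v ∉ T} with hF
  have hgS : gap v S = E ∪ D := by
    ext x
    simp only [gap, hE, hD, Set.mem_ofPred_eq, mem_union]
    constructor
    · rintro ⟨h1, h2⟩
      by_cases h : x + v ∈ T
      · exact Or.inr ⟨h1, h⟩
      · exact Or.inl ⟨h1, h2, h⟩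
    · rintro (⟨h1, h2, h3⟩ | ⟨h1, h2⟩)
      · exact ⟨h1, h2⟩
      · exact ⟨h1, fun h => hnot _ h h2⟩
  have hgT : gap v T = F ∪ D' := by
    ext x
    simp only [gap, hF, hD', Set.mem_ofPred_eq, mem_union]
    constructor
    · rintro ⟨h1, h2⟩
      by_cases h : x + v ∈ S
      · exact Or.inr ⟨h1, h⟩
      · exact Or.inl ⟨h1, h, h2⟩
    · rintro (⟨h1, h2, h3⟩ | ⟨h1, h2⟩)
      · exact ⟨h1, h3⟩
      · exact ⟨h1, fun h => hnot _ h2 h⟩
  have hgU : gap v (S ∪ T) = E ∪ F := by
    ext x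
    simp only [gap, hE, hF, Set.mem_ofPred_eq, mem_union, not_or]
    tauto
  have hEfin : E.Finite := hS.subset (by rw [hgS]; exact subset_union_left)
  have hFfin : F.Finite := hT.subset (by rw [hgT]; exact subset_union_left)
  have hDfin : D.Finite := hS.subset hDsub
  have hD'fin : D'.Finite := hT.subset hD'sub
  have d1 : Disjoint E D := by
    rw [Set.disjoint_left]
    rintro x ⟨_, _, h⟩ ⟨_, h'⟩
    exact h h'
  have d2 : Disjoint F D' := by
    rw [Set.disjoint_left]
    rintro x ⟨_, h, _⟩ ⟨_, h'⟩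
    exact h h'
  have d3 : Disjoint E F := by
    rw [Set.disjoint_left]
    rintro x ⟨h, _, _⟩ ⟨h', _⟩
    exact hnot _ h h'
  unfold par
  rw [hgS, hgT, hgU, Set.ncard_union_eq d1 hEfin hDfin, Set.ncard_union_eq d2 hFfin hD'fin,
    Set.ncard_union_eq d3 hEfin hFfin, hcard]
  push_cast
  have h2 : (D.ncard : ZMod 2) + (D.ncard : ZMod 2) = 0 := by
    rw [← two_mul]
    have : (2 : ZMod 2) = 0 := by decide
    rw [this, zero_mul]
  linear_combination -h2

lemma gap_finite_biUnion {ι : Type*} (v : Q) (s : Finset ι) (P : ι → Set Q)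
    (hP : ∀ i, (gap v (P i)).Finite) : (gap v (⋃ i ∈ s, P i)).Finite := by
  classical
  induction s using Finset.induction_on with
  | empty => simp [gap]
  | insert a s ha ih =>
    rw [Finset.set_biUnion_insert]
    exact ((hP a).union ih).subset (gap_union_subset v _ _)

lemma par_biUnion {ι : Type*} {v : Q} (hv2 : v + v = 0) (s : Finset ι) (P : ι → Set Q)
    (hP : ∀ i, (gap v (P i)).Finite) (hd : Pairwise (Disjoint on P)) :
    par v (⋃ i ∈ s, P i) = ∑ i ∈ s, par v (P i) := by
  classical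
  induction s using Finset.induction_on with
  | empty => simp [par, gap]
  | insert a s ha ih =>
    rw [Finset.set_biUnion_insert, Finset.sum_insert ha, ← ih]
    refine par_union hv2 ?_ (hP a) (gap_finite_biUnion v s P hP)
    rw [Set.disjoint_iUnion₂_right]
    intro i hi
    exact hd (fun h => ha (h ▸ hi))

lemma par_iUnion {k : ℕ} {v : Q} (hv2 : v + v = 0) (P : Fin k → Set Q)
    (hP : ∀ i, (gap v (P i)).Finite) (hd : Pairwise (Disjoint on P)) :
    par v (⋃ i, P i) = ∑ i, par v (P i) := by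
  have := par_biUnion hv2 Finset.univ P hP hd
  simpa using this

/-- The algebra of all countable or co-countable sets that are invariant under translation by `v`
up to a finite set. -/
def alg (v : Q) (hv2 : v + v = 0) : BooleanSubalgebra (Set Q) where
  carrier := {S | (gap v S).Finite ∧ (S.Countable ∨ Sᶜ.Countable)}
  supClosed' := by
    rintro S ⟨h1, h2⟩ T ⟨h3, h4⟩
    refine ⟨(h1.union h3).subset (gap_union_subset v S T), ?_⟩
    rcases h2 with h2 | h2
    · rcases h4 with h4 | h4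
      · exact Or.inl (h2.union h4)
      · right
        refine h4.mono ?_
        rw [Set.compl_subset_compl]
        exact subset_union_right
    · right
      refine h2.mono ?_
      rw [Set.compl_subset_compl]
      exact subset_union_left
  infClosed' := by
    rintro S ⟨h1, h2⟩ T ⟨h3, h4⟩
    constructor
    · have hc : S ⊓ T = (Sᶜ ∪ Tᶜ)ᶜ := by
        rw [Set.compl_union, compl_compl, compl_compl]; rfl
      rw [hc, gap_compl hv2]
      refine Set.Finite.image _ ?_
      refine Set.Finite.subset (Set.Finite.union ?_ ?_) (gap_union_subset v Sᶜ Tᶜ)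
      · rw [gap_compl hv2]; exact h1.image _
      · rw [gap_compl hv2]; exact h3.image _
    · rcases h2 with h2 | h2
      · exact Or.inl (h2.mono inter_subset_left)
      · rcases h4 with h4 | h4
        · exact Or.inl (h4.mono inter_subset_right)
        · right
          have : (S ⊓ T)ᶜ = Sᶜ ∪ Tᶜ := by
            exact Set.compl_inter S T
          rw [this]
          exact h2.union h4
  compl_mem' := by
    rintro S ⟨h1, h2⟩
    refine ⟨?_, ?_⟩
    · rw [gap_compl hv2]; exact h1.image _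
    · rw [compl_compl]; exact h2.symm
  bot_mem' := by
    refine ⟨?_, Or.inl ?_⟩
    · simp [gap]
    · simp

lemma mem_alg {v : Q} {hv2 : v + v = 0} {S : Set Q} :
    S ∈ alg v hv2 ↔ (gap v S).Finite ∧ (S.Countable ∨ Sᶜ.Countable) := Iff.rfl

lemma alg_invariant (v : Q) (hv2 : v + v = 0) : TranslationInvariant (alg v hv2) := by
  rintro S ⟨h1, h2⟩ g
  refine ⟨?_, ?_⟩
  · rw [gap_vadd]
    exact h1.image _
  · rcases h2 with h2 | h2
    · exact Or.inl (h2.image _)
    · right
      have : (g +ᵥ S)ᶜ = g +ᵥ Sᶜ := by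
        ext x; simp [Set.mem_vadd_set_iff_neg_vadd_mem]
      rw [this]
      exact h2.image _

lemma par_eq_of_equidecomposable {v : Q} {hv2 : v + v = 0} {S T : Set Q}
    (h : Equidecomposable (alg v hv2) S T) : par v S = par v T := by
  obtain ⟨k, P, g, hP, hgP, hd, hd', rfl, rfl⟩ := h
  rw [par_iUnion hv2 P (fun i => (hP i).1) hd, par_iUnion hv2 _ (fun i => (hgP i).1) hd']
  exact Finset.sum_congr rfl (fun i _ => (par_vadd v (g i) (P i)).symm)

/-- the double half-line `{k u, k u + v : k ≥ 0}` -/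
def ray (u v : Q) : Set Q := {x | ∃ k : ℕ, x = k • u ∨ x = k • u + v}

lemma ray_countable (u v : Q) : (ray u v).Countable := by
  have : ray u v = (Set.range fun k : ℕ => k • u) ∪ (Set.range fun k : ℕ => k • u + v) := by
    ext x
    simp only [ray, Set.mem_ofPred_eq, mem_union, mem_range]
    constructor
    · rintro ⟨k, h | h⟩
      · exact Or.inl ⟨k, h.symm⟩
      · exact Or.inr ⟨k, h.symm⟩
    · rintro (⟨k, h⟩ | ⟨k, h⟩)
      · exact ⟨k, Or.inl h.symm⟩
      · exact ⟨k, Or.inr h.symm⟩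
  rw [this]
  exact (Set.countable_range _).union (Set.countable_range _)

lemma gap_ray {u v : Q} (hv2 : v + v = 0) : gap v (ray u v) = ∅ := by
  ext x
  simp only [gap, ray, Set.mem_ofPred_eq, mem_empty_iff_false, iff_false, not_and, not_not]
  rintro ⟨k, rfl | rfl⟩
  · exact ⟨k, Or.inr rfl⟩
  · exact ⟨k, Or.inl (by rw [add_assoc, hv2, add_zero])⟩

lemma ray_mem {u v : Q} (hv2 : v + v = 0) : ray u v ∈ alg v hv2 := by
  refine ⟨?_, Or.inl (ray_countable u v)⟩
  rw [gap_ray hv2]; exact Set.finite_empty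

lemma singleton_mem {v : Q} (hv2 : v + v = 0) (x : Q) : ({x} : Set Q) ∈ alg v hv2 := by
  refine ⟨?_, Or.inl (Set.countable_singleton x)⟩
  exact (Set.finite_singleton x).subset (fun y hy => hy.1)

lemma neg_notMem_ray {u v : Q} (hv2 : v + v = 0) (hu : ∀ k : ℕ, 0 < k → k • u ≠ 0) :
    -u ∉ ray u v := by
  rintro ⟨k, h | h⟩
  · apply hu (k + 1) (Nat.succ_pos k)
    rw [succ_nsmul, ← h, neg_add_cancel]
  · apply hu (2 * (k + 1)) (by positivity)
    have h1 : (k + 1) • u = -v := by
      rw [succ_nsmul]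
      have : k • u = -u - v := by rw [h]; abel
      rw [this]; abel
    rw [mul_nsmul', h1]
    rw [two_nsmul, ← neg_add, hv2, neg_zero]

lemma par_ray {u v : Q} (hv2 : v + v = 0) : par v (ray u v) = 0 := by
  unfold par
  rw [gap_ray hv2]; simp

lemma par_singleton {v : Q} (hv : v ≠ 0) (x : Q) : par v {x} = 1 := by
  unfold par
  have : gap v ({x} : Set Q) = {x} := by
    ext y
    simp only [gap, Set.mem_ofPred_eq, mem_singleton_iff]
    constructor
    · exact fun h => h.1
    · rintro rfl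
      refine ⟨rfl, ?_⟩
      simpa using hv
  rw [this, Set.ncard_singleton]
  simp

lemma not_equidecomposable {u v : Q} (hv : v ≠ 0) (hv2 : v + v = 0)
    (hu : ∀ k : ℕ, 0 < k → k • u ≠ 0) :
    ¬ Equidecomposable (alg v hv2) (ray u v) (ray u v ∪ {-u}) := by
  intro h
  have h1 := par_eq_of_equidecomposable h
  rw [par_union hv2 (Set.disjoint_singleton_right.mpr (neg_notMem_ray hv2 hu))
    (ray_mem hv2).1 (singleton_mem hv2 (-u)).1, par_singleton hv, par_ray hv2] at h1
  exact absurd h1 (by decide)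

lemma ray_decomp {u v : Q} :
    ray u v = (u +ᵥ ray u v) ∪ {0} ∪ {v} := by
  ext x
  simp only [mem_union, mem_singleton_iff, Set.mem_vadd_set_iff_neg_vadd_mem, vadd_eq_add]
  constructor
  · rintro ⟨k, h | h⟩
    · rcases k with _ | k
      · left; right; simpa using h
      · left; left
        refine ⟨k, Or.inl ?_⟩
        rw [h, succ_nsmul]; abel
    · rcases k with _ | k
      · right; simpa using h
      · left; left
        refine ⟨k, Or.inr ?_⟩
        rw [h, succ_nsmul]; abel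
  · rintro ((⟨k, h | h⟩ | h) | h)
    · refine ⟨k + 1, Or.inl ?_⟩
      rw [succ_nsmul, ← h]; abel
    · refine ⟨k + 1, Or.inr ?_⟩
      have : x = u + (k • u + v) := by rw [← h]; abel
      rw [this, succ_nsmul]; abel
    · exact ⟨0, Or.inl (by simpa using h)⟩
    · exact ⟨0, Or.inr (by simpa using h)⟩


/-- `2[S] = 2[S ∪ {-u}]` for the double half-line `S`. -/
lemma double_equidecomposable {u v : Q} (hv : v ≠ 0) (hv2 : v + v = 0)
    (hu : ∀ k : ℕ, 0 < k → k • u ≠ 0) :
    MultipleEquidecomposable (alg v hv2) 2 (ray u v) (ray u v ∪ {-u}) := by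
  have hneg : -u ∉ ray u v := neg_notMem_ray hv2 hu
  have hshift : (-u) +ᵥ (u +ᵥ ray u v) = ray u v := by
    rw [vadd_vadd]; simp
  have h0 : (0 : Q) ∉ u +ᵥ ray u v := by
    intro h
    rw [Set.mem_vadd_set_iff_neg_vadd_mem] at h
    exact hneg (by simpa using h)
  have hvn : v ∉ u +ᵥ ray u v := by
    intro h
    rw [Set.mem_vadd_set_iff_neg_vadd_mem] at h
    have h' : -u + v ∈ ray u v := by simpa using h
    obtain ⟨k, h1 | h1⟩ := h'
    · apply hneg
      refine ⟨k, Or.inr ?_⟩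
      have : -u = (-u + v) + v := by rw [add_assoc, hv2, add_zero]
      rw [this, h1]
    · apply hneg
      exact ⟨k, Or.inl (by simpa using h1)⟩
  refine ⟨4, ![u +ᵥ ray u v, {0}, {v}, ray u v], ![0, 0, 0, 1], ![0, 0, 1, 1],
    ![-u, -u, -u - v, 0], ?_, ?_, ?_, ?_, ?_, ?_⟩
  · intro i
    fin_cases i
    · exact alg_invariant v hv2 _ (ray_mem hv2) u
    · exact singleton_mem hv2 0
    · exact singleton_mem hv2 v
    · exact ray_mem hv2
  · intro i
    fin_cases i
    · exact alg_invariant v hv2 _ (alg_invariant v hv2 _ (ray_mem hv2) u) (-u)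
    · exact alg_invariant v hv2 _ (singleton_mem hv2 0) (-u)
    · exact alg_invariant v hv2 _ (singleton_mem hv2 v) (-u - v)
    · exact alg_invariant v hv2 _ (ray_mem hv2) 0
  · intro i j hij
    rw [Function.onFun, Set.disjoint_left]
    rintro ⟨x, l⟩ hx hy
    fin_cases i <;> fin_cases j <;> simp_all
  · intro i j hij
    rw [Function.onFun, Set.disjoint_left]
    rintro ⟨x, l⟩ hx hy
    fin_cases i <;> fin_cases j <;> simp_all
  · have key := ray_decomp (u := u) (v := v)
    ext ⟨x, l⟩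
    have hx : x ∈ ray u v ↔ (x ∈ u +ᵥ ray u v ∨ x = 0) ∨ x = v := by
      conv_lhs => rw [key]
      simp only [mem_union, mem_singleton_iff]
    simp only [mem_iUnion, mem_prod, mem_singleton_iff, mem_Iio]
    constructor
    · rintro ⟨i, h1, h2⟩
      fin_cases i
      · simp at h1 h2; exact ⟨hx.mpr (Or.inl (Or.inl h1)), by omega⟩
      · simp at h1 h2; exact ⟨hx.mpr (Or.inl (Or.inr h1)), by omega⟩
      · simp at h1 h2; exact ⟨hx.mpr (Or.inr h1), by omega⟩
      · simp at h1 h2; exact ⟨h1, by omega⟩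
    · rintro ⟨h1, h2⟩
      have hl : l = 0 ∨ l = 1 := by omega
      rcases hl with rfl | rfl
      · rcases hx.mp h1 with (h | h) | h
        · exact ⟨0, by simpa using h, by simp⟩
        · exact ⟨1, by simpa using h, by simp⟩
        · exact ⟨2, by simpa using h, by simp⟩
      · exact ⟨3, by simpa using h1, by simp⟩
  · ext ⟨x, l⟩
    simp only [mem_iUnion, mem_prod, mem_singleton_iff, mem_Iio, mem_union]
    have e1 : (-u) +ᵥ ({0} : Set Q) = {-u} := by simp
    have e2 : (-u - v) +ᵥ ({v} : Set Q) = {-u} := by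
      simp
    have e3 : (0 : Q) +ᵥ ray u v = ray u v := by simp
    constructor
    · rintro ⟨i, h1, h2⟩
      fin_cases i
      · change x ∈ (-u) +ᵥ (u +ᵥ ray u v) at h1
        change l = 0 at h2
        rw [hshift] at h1
        exact ⟨Or.inl h1, by omega⟩
      · change x ∈ (-u) +ᵥ ({0} : Set Q) at h1
        change l = 0 at h2
        rw [e1] at h1
        exact ⟨Or.inr h1, by omega⟩
      · change x ∈ (-u - v) +ᵥ ({v} : Set Q) at h1
        change l = 1 at h2
        rw [e2] at h1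
        exact ⟨Or.inr h1, by omega⟩
      · change x ∈ (0 : Q) +ᵥ ray u v at h1
        change l = 1 at h2
        rw [e3] at h1
        exact ⟨Or.inl h1, by omega⟩
    · rintro ⟨h1, h2⟩
      have hl : l = 0 ∨ l = 1 := by omega
      rcases hl with rfl | rfl
      · rcases h1 with h1 | h1
        · refine ⟨0, ?_, rfl⟩
          change x ∈ (-u) +ᵥ (u +ᵥ ray u v)
          rw [hshift]; exact h1
        · refine ⟨1, ?_, rfl⟩
          change x ∈ (-u) +ᵥ ({0} : Set Q)
          rw [e1]; exact h1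
      · rcases h1 with h1 | h1
        · refine ⟨3, ?_, rfl⟩
          change x ∈ (0 : Q) +ᵥ ray u v
          rw [e3]; exact h1
        · refine ⟨2, ?_, rfl⟩
          change x ∈ (-u - v) +ᵥ ({v} : Set Q)
          rw [e2]; exact h1

end Algebraic

section Pullback

variable {X Q : Type*} [AddCommGroup X] [AddCommGroup Q]

/-- The algebra of all preimages of members of `𝒜` under a homomorphism. -/
def pull (φ : X →+ Q) (𝒜 : BooleanSubalgebra (Set Q)) : BooleanSubalgebra (Set X) where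
  carrier := {A | ∃ S ∈ 𝒜, A = φ ⁻¹' S}
  supClosed' := by
    rintro _ ⟨S, hS, rfl⟩ _ ⟨T, hT, rfl⟩
    exact ⟨S ⊔ T, BooleanSubalgebra.sup_mem hS hT, rfl⟩
  infClosed' := by
    rintro _ ⟨S, hS, rfl⟩ _ ⟨T, hT, rfl⟩
    exact ⟨S ⊓ T, BooleanSubalgebra.inf_mem hS hT, rfl⟩
  compl_mem' := by
    rintro _ ⟨S, hS, rfl⟩
    exact ⟨Sᶜ, BooleanSubalgebra.compl_mem hS, rfl⟩
  bot_mem' := ⟨⊥, BooleanSubalgebra.bot_mem, rfl⟩

lemma mem_pull {φ : X →+ Q} {𝒜 : BooleanSubalgebra (Set Q)} {A : Set X} :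
    A ∈ pull φ 𝒜 ↔ ∃ S ∈ 𝒜, A = φ ⁻¹' S := Iff.rfl

lemma vadd_preimage (φ : X →+ Q) (g : X) (S : Set Q) :
    g +ᵥ (φ ⁻¹' S) = φ ⁻¹' (φ g +ᵥ S) := by
  ext x
  simp only [Set.mem_vadd_set_iff_neg_vadd_mem, mem_preimage, vadd_eq_add, map_add, map_neg]

lemma pull_invariant {φ : X →+ Q} {𝒜 : BooleanSubalgebra (Set Q)}
    (h : TranslationInvariant 𝒜) : TranslationInvariant (pull φ 𝒜) := by
  rintro _ ⟨S, hS, rfl⟩ g
  exact ⟨φ g +ᵥ S, h S hS (φ g), vadd_preimage φ g S⟩

lemma equidecomposable_of_pull {φ : X →+ Q} (hφ : Function.Surjective φ)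
    {𝒜 : BooleanSubalgebra (Set Q)} {S T : Set Q}
    (h : Equidecomposable (pull φ 𝒜) (φ ⁻¹' S) (φ ⁻¹' T)) : Equidecomposable 𝒜 S T := by
  obtain ⟨k, P, g, hP, hgP, hd, hd', h1, h2⟩ := h
  choose R hR hPR using hP
  have hgR : ∀ i, (φ (g i) +ᵥ R i) ∈ 𝒜 := by
    intro i
    obtain ⟨S', hS', h'⟩ := hgP i
    rw [hPR i, vadd_preimage] at h'
    rw [hφ.preimage_injective h']
    exact hS'
  refine ⟨k, R, fun i => φ (g i), hR, hgR, ?_, ?_, ?_, ?_⟩
  · intro i j hij
    have := hd hij
    rw [Function.onFun, hPR i, hPR j] at this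
    rw [Function.onFun]
    rw [Set.disjoint_left] at this ⊢
    intro q hq hq'
    obtain ⟨x, rfl⟩ := hφ q
    exact this hq hq'
  · intro i j hij
    have := hd' hij
    rw [Function.onFun, hPR i, hPR j, vadd_preimage, vadd_preimage] at this
    rw [Function.onFun]
    rw [Set.disjoint_left] at this ⊢
    intro q hq hq'
    obtain ⟨x, rfl⟩ := hφ q
    exact this hq hq'
  · apply hφ.preimage_injective
    rw [← h1, Set.preimage_iUnion]
    exact Set.iUnion_congr (fun i => (hPR i).symm)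
  · apply hφ.preimage_injective
    rw [← h2, Set.preimage_iUnion]
    exact Set.iUnion_congr (fun i => by rw [hPR i, vadd_preimage])

lemma multiple_pull {φ : X →+ Q} (hφ : Function.Surjective φ)
    {𝒜 : BooleanSubalgebra (Set Q)} {S T : Set Q} {n : ℕ}
    (h : MultipleEquidecomposable 𝒜 n S T) :
    MultipleEquidecomposable (pull φ 𝒜) n (φ ⁻¹' S) (φ ⁻¹' T) := by
  obtain ⟨k, C, j, m, g, hC, hgC, hd, hd', h1, h2⟩ := h
  choose γ hγ using fun i => hφ (g i)
  have hv : ∀ i, γ i +ᵥ (φ ⁻¹' (C i)) = φ ⁻¹' (g i +ᵥ C i) := fun i => by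
    rw [vadd_preimage, hγ i]
  refine ⟨k, fun i => φ ⁻¹' (C i), j, m, γ, fun i => ⟨C i, hC i, rfl⟩, ?_, ?_, ?_, ?_, ?_⟩
  · intro i
    exact ⟨g i +ᵥ C i, hgC i, hv i⟩
  · intro a b hab
    have := hd hab
    simp only [Function.onFun, Set.disjoint_left] at this ⊢
    rintro ⟨x, l⟩ hx hy
    exact this (a := (φ x, l)) hx hy
  · intro a b hab
    have := hd' hab
    simp only [Function.onFun, Set.disjoint_left] at this ⊢
    rintro ⟨x, l⟩ hx hy
    rw [hv] at hx hy
    exact this (a := (φ x, l)) hx hy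
  · ext ⟨x, l⟩
    have := Set.ext_iff.mp h1 (φ x, l)
    simpa only [mem_iUnion, mem_prod, mem_preimage] using this
  · ext ⟨x, l⟩
    have := Set.ext_iff.mp h2 (φ x, l)
    simp only [hv]
    simpa only [mem_iUnion, mem_prod, mem_preimage] using this

lemma pull_countable {φ : X →+ Q} {v : Q} {hv2 : v + v = 0}
    (hk : (φ ⁻¹' {0}).Countable) {A : Set X} (hA : A ∈ pull φ (alg v hv2)) :
    A.Countable ∨ Aᶜ.Countable := by
  have fib : ∀ S : Set Q, S.Countable → (φ ⁻¹' S).Countable := by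
    intro S hS
    have : φ ⁻¹' S = ⋃ q ∈ S, φ ⁻¹' {q} := by
      rw [← Set.preimage_iUnion₂, Set.biUnion_of_singleton]
    rw [this]
    refine hS.biUnion ?_
    intro q _
    by_cases hne : (φ ⁻¹' {q}).Nonempty
    · obtain ⟨x₀, hx₀⟩ := hne
      have hx₀' : φ x₀ = q := hx₀
      have : φ ⁻¹' {q} ⊆ (fun y => x₀ + y) '' (φ ⁻¹' {0}) := by
        intro x hx
        have hx' : φ x = q := hx
        refine ⟨x - x₀, ?_, by simp⟩
        simp [hx', hx₀']
      exact (hk.image _).mono this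
    · rw [Set.not_nonempty_iff_eq_empty.mp hne]
      exact Set.countable_empty
  obtain ⟨S, ⟨_, h | h⟩, rfl⟩ := hA
  · exact Or.inl (fib S h)
  · exact Or.inr (fib Sᶜ h)

end Pullback

section Main

variable {X : Type*} [AddCommGroup X]

/-- Purely algebraic form. -/
theorem cancellation_fails_of_independent (u w : X) (hw : ∀ m : ℤ, w ≠ m • (2 • w))
    (hu : ∀ k : ℕ, 0 < k → ∀ m : ℤ, k • u ≠ m • w) :
    ∃ 𝒜 : BooleanSubalgebra (Set X), TranslationInvariant 𝒜 ∧
      (∀ A ∈ 𝒜, A.Countable ∨ Aᶜ.Countable) ∧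
      ∃ A ∈ 𝒜, ∃ B ∈ 𝒜, MultipleEquidecomposable 𝒜 2 A B ∧ ¬ Equidecomposable 𝒜 A B := by
  set L : AddSubgroup X := AddSubgroup.zmultiples (2 • w) with hL
  let φ : X →+ X ⧸ L := QuotientAddGroup.mk' L
  have hφ : Function.Surjective φ := QuotientAddGroup.mk'_surjective L
  have hφ0 : ∀ x, φ x = 0 ↔ ∃ m : ℤ, m • (2 • w) = x := by
    intro x
    rw [← AddSubgroup.mem_zmultiples_iff]
    exact QuotientAddGroup.eq_zero_iff x
  have hv : φ w ≠ 0 := by
    intro h
    obtain ⟨m, hm⟩ := (hφ0 w).mp h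
    exact hw m hm.symm
  have hv2 : φ w + φ w = 0 := by
    rw [← map_add, hφ0]
    exact ⟨1, by rw [one_smul, two_nsmul]⟩
  have hu' : ∀ k : ℕ, 0 < k → k • φ u ≠ 0 := by
    intro k hk h
    rw [← map_nsmul, hφ0] at h
    obtain ⟨m, hm⟩ := h
    apply hu k hk (m * 2)
    rw [← hm, mul_smul]
    norm_cast
  have hk : (φ ⁻¹' {0}).Countable := by
    have : φ ⁻¹' {0} ⊆ Set.range (fun m : ℤ => m • (2 • w)) := by
      intro x hx
      obtain ⟨m, hm⟩ := (hφ0 x).mp hx
      exact ⟨m, hm⟩
    exact (Set.countable_range _).mono this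
  refine ⟨pull φ (alg (φ w) hv2), pull_invariant (alg_invariant _ _),
    fun A hA => pull_countable hk hA, φ ⁻¹' (ray (φ u) (φ w)), ⟨_, ray_mem hv2, rfl⟩,
    φ ⁻¹' (ray (φ u) (φ w) ∪ {-(φ u)}), ⟨_, ?_, rfl⟩,
    multiple_pull hφ (double_equidecomposable hv hv2 hu'), ?_⟩
  · exact BooleanSubalgebra.sup_mem (ray_mem hv2) (singleton_mem hv2 _)
  · intro h
    exact not_equidecomposable hv hv2 hu' (equidecomposable_of_pull hφ h)

/-- In a compact Hausdorff abelian group that is not a torsion group there are elements `u, w`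
such that `w` has infinite order and no positive multiple of `u` is a multiple of `w`. -/
theorem exists_independent [TopologicalSpace X] [IsTopologicalAddGroup X] [CompactSpace X]
    [T2Space X] (hX : ∃ w : X, ∀ n : ℕ, 0 < n → n • w ≠ 0) :
    ∃ u w : X, (∀ m : ℤ, w ≠ m • (2 • w)) ∧ (∀ k : ℕ, 0 < k → ∀ m : ℤ, k • u ≠ m • w) := by
  obtain ⟨w, hw⟩ := hX
  have hw' : ∀ m : ℤ, m ≠ 0 → m • w ≠ 0 := by
    intro m hm h
    have h2 : m.natAbs • w = 0 := by
      rcases Int.natAbs_eq m with h3 | h3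
      · rw [h3] at h
        simpa using h
      · rw [h3] at h
        simpa using h
    exact hw m.natAbs (Int.natAbs_pos.mpr hm) h2
  have hw1 : ∀ m : ℤ, w ≠ m • (2 • w) := by
    intro m h
    apply hw' (m * 2 - 1) (by omega)
    rw [sub_smul, one_smul, mul_smul]
    rw [sub_eq_zero]
    have : (2 : ℤ) • w = 2 • w := by norm_cast
    rw [this]; exact h.symm
  by_contra hcon
  push Not at hcon
  have hcov : ∀ u : X, ∃ k : ℕ, 0 < k ∧ ∃ m : ℤ, k • u = m • w := fun u => hcon u w hw1
  -- Baire category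
  let f : ℕ × ℤ → Set X := fun p => {u | (p.1 + 1) • u = p.2 • w}
  have hfc : ∀ p, IsClosed (f p) := by
    intro p
    exact isClosed_eq (continuous_nsmul (p.1 + 1)) continuous_const
  have hfu : ⋃ p, f p = Set.univ := by
    rw [Set.eq_univ_iff_forall]
    intro u
    obtain ⟨k, hk, m, hm⟩ := hcov u
    rw [mem_iUnion]
    refine ⟨(k - 1, m), ?_⟩
    change (k - 1 + 1) • u = m • w
    rw [Nat.sub_add_cancel hk]; exact hm
  obtain ⟨p, hp⟩ := nonempty_interior_of_iUnion_of_closed hfc hfu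
  obtain ⟨x₀, hx₀⟩ := hp
  -- the subgroup of elements killed by N := p.1 + 1
  set N : ℕ := p.1 + 1 with hN
  let K : AddSubgroup X := (nsmulAddMonoidHom N : X →+ X).ker
  have hKmem : ∀ x, x ∈ K ↔ N • x = 0 := fun x => by
    simp [K, AddMonoidHom.mem_ker]
  have hKopen : IsOpen (K : Set X) := by
    apply AddSubgroup.isOpen_of_mem_nhds (g := 0)
    have h1 : f p ∈ nhds x₀ := mem_interior_iff_mem_nhds.mp hx₀
    have hxf0 : x₀ ∈ f p := interior_subset hx₀
    have hxf : N • x₀ = p.2 • w := hxf0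
    have h2 : Filter.Tendsto (fun y : X => x₀ + y) (nhds 0) (nhds x₀) := by
      have : Filter.Tendsto (fun y : X => x₀ + y) (nhds 0) (nhds (x₀ + 0)) :=
        (continuous_const.add continuous_id).tendsto 0
      simpa using this
    filter_upwards [h2 h1] with y hy
    have hy' : N • (x₀ + y) = p.2 • w := hy
    rw [nsmul_add, hxf] at hy'
    change y ∈ K
    rw [hKmem]
    simpa using hy'
  have hfin : Finite (X ⧸ K) := AddSubgroup.quotient_finite_of_isOpen K hKopen
  have hidx : ∀ x : X, (Nat.card (X ⧸ K)) • x ∈ K := by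
    intro x
    have h3 : (Nat.card (X ⧸ K)) • (QuotientAddGroup.mk x : X ⧸ K) = 0 := by
      exact card_nsmul_eq_zero'
    rw [← QuotientAddGroup.mk_nsmul] at h3
    exact (QuotientAddGroup.eq_zero_iff _).mp h3
  have hfinal := (hKmem _).mp (hidx w)
  have hpos : 0 < Nat.card (X ⧸ K) := Nat.card_pos
  apply hw' ((N * Nat.card (X ⧸ K) : ℕ) : ℤ)
  · have : 0 < N * Nat.card (X ⧸ K) := Nat.mul_pos (Nat.succ_pos _) hpos
    omega
  · rw [natCast_zsmul, mul_nsmul']
    exact hfinal

end Main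

end Pool.Agent.Lib.MP_59868e_an
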